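import Mathlib

/-! A disjoint family of closed discs in the unit disc with small total radius, whose centres
accumulate at every point of the closed unit disc outside the open discs. -/

set_option autoImplicit false

open Set Filter Topology Metric

namespace Pool.Agent.R254.Cheese

/-- a dense sequence -/
noncomputable def q : ℕ → ℂ := TopologicalSpace.denseSeq ℂ

/-- radii, chosen recursively; `0` if the `n`-th point is already covered -/
noncomputable def rho (n : ℕ) : ℝ := by
  classical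
  exact if h : ∃ r : ℝ, 0 < r ∧ r ≤ (1 / 2) ^ (n + 3) ∧ closedBall (q n) r ⊆ ball 0 1 ∧
      ∀ m : Fin n, 0 < rho m → Disjoint (closedBall (q m) (rho m)) (closedBall (q n) r)
    then h.choose else 0
termination_by n
decreasing_by all_goals exact m.2

theorem rho_spec (n : ℕ) : (0 < rho n ∧ rho n ≤ (1 / 2) ^ (n + 3) ∧
      closedBall (q n) (rho n) ⊆ ball 0 1 ∧
      ∀ m : Fin n, 0 < rho m → Disjoint (closedBall (q m) (rho m)) (closedBall (q n) (rho n))) ∨
    (rho n = 0 ∧ ¬ ∃ r : ℝ, 0 < r ∧ r ≤ (1 / 2) ^ (n + 3) ∧ closedBall (q n) r ⊆ ball 0 1 ∧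
      ∀ m : Fin n, 0 < rho m → Disjoint (closedBall (q m) (rho m)) (closedBall (q n) r)) := by
  classical
  by_cases h : ∃ r : ℝ, 0 < r ∧ r ≤ (1 / 2) ^ (n + 3) ∧ closedBall (q n) r ⊆ ball 0 1 ∧
      ∀ m : Fin n, 0 < rho m → Disjoint (closedBall (q m) (rho m)) (closedBall (q n) r)
  · left
    have : rho n = h.choose := by
      rw [rho, dif_pos h]
    rw [this]
    exact h.choose_spec
  · right
    refine ⟨?_, h⟩
    rw [rho, dif_neg h]

theorem rho_nonneg (n : ℕ) : 0 ≤ rho n := by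
  rcases rho_spec n with h | h
  · exact h.1.le
  · rw [h.1]

theorem rho_le (n : ℕ) : rho n ≤ (1 / 2) ^ (n + 3) := by
  rcases rho_spec n with h | h
  · exact h.2.1
  · rw [h.1]; positivity

theorem ball_sub {n : ℕ} (hn : 0 < rho n) : closedBall (q n) (rho n) ⊆ ball 0 1 := by
  rcases rho_spec n with h | h
  · exact h.2.2.1
  · exact absurd h.1 hn.ne'

theorem disj {m n : ℕ} (hmn : m ≠ n) (hm : 0 < rho m) (hn : 0 < rho n) :
    Disjoint (closedBall (q m) (rho m)) (closedBall (q n) (rho n)) := by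
  have key : ∀ {m n : ℕ}, m < n → 0 < rho m → 0 < rho n →
      Disjoint (closedBall (q m) (rho m)) (closedBall (q n) (rho n)) := by
    intro m n hmn hm hn
    rcases rho_spec n with h | h
    · exact h.2.2.2 ⟨m, hmn⟩ hm
    · exact absurd h.1 hn.ne'
  rcases lt_or_gt_of_ne hmn with h | h
  · exact key h hm hn
  · exact (key h hn hm).symm

theorem covered {n : ℕ} (hn : q n ∈ ball (0:ℂ) 1) :
    ∃ m, 0 < rho m ∧ q n ∈ closedBall (q m) (rho m) := by
  rcases rho_spec n with h | h
  · exact ⟨n, h.1, mem_closedBall_self h.1.le⟩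
  · by_contra hcon
    push Not at hcon
    apply h.2
    have hcl : IsClosed (⋃ m ∈ {m : Fin n | 0 < rho m}, closedBall (q m) (rho m)) :=
      (Set.toFinite _).isClosed_biUnion fun _ _ => isClosed_closedBall
    have hmem : (ball (0:ℂ) 1 ∩ (⋃ m ∈ {m : Fin n | 0 < rho m}, closedBall (q m) (rho m))ᶜ) ∈ 𝓝 (q n) := by
      refine inter_mem (isOpen_ball.mem_nhds hn) (hcl.isOpen_compl.mem_nhds ?_)
      simp only [mem_compl_iff, mem_iUnion, not_exists]
      intro m hm
      exact hcon m hm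
    obtain ⟨r, hr, hsub⟩ := Metric.nhds_basis_closedBall.mem_iff.1 hmem
    refine ⟨min r ((1 / 2) ^ (n + 3)), lt_min hr (by positivity), min_le_right _ _, ?_, ?_⟩
    · exact (closedBall_subset_closedBall (min_le_left _ _)).trans (hsub.trans inter_subset_left)
    · intro m hm
      rw [Set.disjoint_left]
      intro z hz hz'
      have := (hsub (closedBall_subset_closedBall (min_le_left _ _) hz')).2
      apply this
      simp only [mem_iUnion]
      exact ⟨m, hm, hz⟩

theorem tendsto_rho : Tendsto rho atTop (𝓝 0) := by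
  have h1 : Tendsto (fun n : ℕ => ((1:ℝ) / 2) ^ (n + 3)) atTop (𝓝 0) :=
    (tendsto_pow_atTop_nhds_zero_of_lt_one (by norm_num) (by norm_num)).comp (tendsto_add_atTop_nat 3)
  exact squeeze_zero rho_nonneg rho_le h1

theorem finite_large {ε : ℝ} (hε : 0 < ε) : {n : ℕ | ε ≤ rho n}.Finite := by
  have h := tendsto_rho.eventually (gt_mem_nhds hε)
  obtain ⟨N, hN⟩ := eventually_atTop.1 h
  refine (Set.finite_lt_nat N).subset fun n hn => ?_
  by_contra hcon
  simp only [mem_setOf_eq, not_lt] at hcon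
  exact absurd (hN n hcon) (not_lt.2 hn)

/-- the centres accumulate at the remaining points -/
theorem centres_dense {z₀ : ℂ} (hz : z₀ ∈ closedBall (0:ℂ) 1) (hz' : ∀ n, z₀ ∉ ball (q n) (rho n))
    {ε : ℝ} (hε : 0 < ε) : ∃ n, 0 < rho n ∧ dist (q n) z₀ < ε := by
  by_contra hcon
  push Not at hcon
  set F : Set ℕ := {n | ε / 2 ≤ rho n} with hF
  have hFfin : F.Finite := finite_large (by positivity)
  have hFpos : ∀ n ∈ F, 0 < rho n := fun n hn => lt_of_lt_of_le (by positivity) hn
  set O : Set ℂ := ball z₀ (ε / 2) ∩ ball 0 1 with hO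
  have hOo : IsOpen O := isOpen_ball.inter isOpen_ball
  have hcl : IsClosed (⋃ n ∈ F, closedBall (q n) (rho n)) :=
    hFfin.isClosed_biUnion fun _ _ => isClosed_closedBall
  have hcov : O ⊆ ⋃ n ∈ F, closedBall (q n) (rho n) := by
    have hd : Dense (range q) := TopologicalSpace.denseRange_denseSeq ℂ
    refine (hd.open_subset_closure_inter hOo).trans (hcl.closure_subset_iff.2 ?_)
    rintro _ ⟨hy, i, rfl⟩
    obtain ⟨m, hm, hmem⟩ := covered hy.2
    refine mem_biUnion (x := m) ?_ hmem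
    show ε / 2 ≤ rho m
    have h1 := hcon m hm
    have h2 : dist (q i) z₀ < ε / 2 := hy.1
    have h3 : dist (q i) (q m) ≤ rho m := hmem
    have h4 := dist_triangle (q m) (q i) z₀
    rw [dist_comm (q m) (q i)] at h4
    linarith
  by_cases hin : ∃ m ∈ F, z₀ ∈ closedBall (q m) (rho m)
  · obtain ⟨m, hm, hzm⟩ := hin
    have hcl' : IsClosed (⋃ n ∈ F \ {m}, closedBall (q n) (rho n)) :=
      (hFfin.subset diff_subset).isClosed_biUnion fun _ _ => isClosed_closedBall
    have hnot : z₀ ∉ ⋃ n ∈ F \ {m}, closedBall (q n) (rho n) := by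
      simp only [mem_iUnion, not_exists]
      rintro n ⟨hn, hnm⟩ hzn
      exact Set.disjoint_left.1 (disj hnm (hFpos n hn) (hFpos m hm)) hzn hzm
    have hnb : (ball z₀ (ε / 2) ∩ ball 0 1) ∩ (⋃ n ∈ F \ {m}, closedBall (q n) (rho n))ᶜ ∈ 𝓝 z₀ := by
      refine inter_mem (inter_mem (ball_mem_nhds _ (by positivity))
        (isOpen_ball.mem_nhds (ball_sub (hFpos m hm) hzm))) (hcl'.isOpen_compl.mem_nhds hnot)
    have hsub : (ball z₀ (ε / 2) ∩ ball 0 1) ∩ (⋃ n ∈ F \ {m}, closedBall (q n) (rho n))ᶜ ⊆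
        closedBall (q m) (rho m) := by
      rintro y ⟨hy, hy'⟩
      obtain ⟨n, hn, hyn⟩ := mem_iUnion₂.1 (hcov hy)
      by_cases hnm : n = m
      · rw [← hnm]; exact hyn
      · exact absurd (mem_biUnion (show n ∈ F \ {m} from ⟨hn, hnm⟩) hyn) hy'
    have : z₀ ∈ interior (closedBall (q m) (rho m)) :=
      mem_interior_iff_mem_nhds.2 (mem_of_superset hnb hsub)
    rw [interior_closedBall _ (hFpos m hm).ne'] at this
    exact hz' m this
  · push Not at hin
    have hnot : z₀ ∉ ⋃ n ∈ F, closedBall (q n) (rho n) := by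
      simp only [mem_iUnion, not_exists]
      exact hin
    have hnb : ball z₀ (ε / 2) ∩ (⋃ n ∈ F, closedBall (q n) (rho n))ᶜ ∈ 𝓝 z₀ :=
      inter_mem (ball_mem_nhds _ (by positivity)) (hcl.isOpen_compl.mem_nhds hnot)
    have hzc : z₀ ∈ closure (ball (0:ℂ) 1) := by rw [closure_ball _ one_ne_zero]; exact hz
    obtain ⟨y, hy, hy'⟩ := mem_closure_iff_nhds.1 hzc _ hnb
    exact hy.2 (hcov ⟨hy.1, hy'⟩)

end Pool.Agent.R254.Cheese
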