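import Pool.Agent.R254.Cheese.Set

/-! The function is not in `R(X)`. -/

set_option autoImplicit false

open Set Filter Topology Metric Polynomial

namespace Pool.Agent.R254.Cheese

open Pool.Agent.H136R3

theorem sum_rho_le (S : Finset ℕ) : ∑ i ∈ S, rho i ≤ 1 / 4 := by
  have h1 : Summable fun n : ℕ => ((1:ℝ) / 2) ^ (n + 3) := by
    have := (summable_geometric_of_lt_one (r := (1:ℝ) / 2) (by norm_num) (by norm_num)).mul_right ((1 / 2) ^ 3)
    refine this.congr fun n => ?_
    rw [pow_add]
  have h2 : ∑' n : ℕ, ((1:ℝ) / 2) ^ (n + 3) = 1 / 4 := by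
    have : (fun n : ℕ => ((1:ℝ) / 2) ^ (n + 3)) = fun n => (1 / 2) ^ n * (1 / 2) ^ 3 := by
      funext n; rw [pow_add]
    rw [this, tsum_mul_right, tsum_geometric_of_lt_one (by norm_num) (by norm_num)]
    norm_num
  calc ∑ i ∈ S, rho i ≤ ∑ i ∈ S, ((1:ℝ) / 2) ^ (i + 3) := Finset.sum_le_sum fun i _ => rho_le i
    _ ≤ ∑' n : ℕ, ((1:ℝ) / 2) ^ (n + 3) := h1.sum_le_tsum S fun _ _ => by positivity
    _ = 1 / 4 := h2

theorem rho_le' (n : ℕ) : rho n ≤ 1 / 8 := by
  refine (rho_le n).trans ?_
  rw [pow_add]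
  have : ((1:ℝ) / 2) ^ n ≤ 1 := pow_le_one₀ (by norm_num) (by norm_num)
  nlinarith

theorem circle_const (c : ℂ) (R : ℝ) (hR : 0 ≤ R) (a : ℂ) : (∮ _z in C(c, R), a) = 0 :=
  Complex.circleIntegral_eq_zero_of_differentiable_on_off_countable hR countable_empty
    continuousOn_const (fun _ _ => differentiableAt_const _)

theorem ff_not_mem (h : ContinuousOn ff XX) :
    (⟨fun z : XX => ff z, continuousOn_iff_continuous_restrict.1 h⟩ : C(XX, ℂ)) ∉ R XX := by
  intro hmem
  haveI : CompactSpace XX := isCompact_iff_compactSpace.1 isCompact_XX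
  have hmem' := hmem
  rw [R, Metric.mem_closure_iff] at hmem'
  obtain ⟨g, ⟨p, Q, hQ, hg⟩, hdist⟩ := hmem' (1 / 4) (by norm_num)
  have h1X : (1:ℂ) ∈ XX := KK_sub (unit_sub_KK (by simp))
  have hQ0 : Q ≠ 0 := by
    rintro rfl
    exact hQ 1 h1X (by simp)
  obtain ⟨p', s, hs1, hs2⟩ := exists_GG p Q hQ0
  have hclose : ∀ z ∈ KK, ‖GG p' s z - star z‖ ≤ 1 / 4 := by
    intro z hz
    have h1 := (ContinuousMap.dist_apply_le_dist (⟨z, KK_sub hz⟩ : XX)).trans hdist.le
    rw [dist_comm, dist_eq_norm, hg] at h1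
    simp only [ContinuousMap.coe_mk] at h1
    rw [hs2, ff_KK hz] at h1
    exact h1
  have hroot : ∀ b ∈ s, b ∉ closedBall (0:ℂ) 1 ∨ ∃ n, b ∈ ball (q n) (rho n) := by
    intro b hb
    by_contra hcon
    push Not at hcon
    exact hQ b (KK_sub ⟨hcon.1, hcon.2⟩) (hs1 b hb)
  classical
  obtain ⟨S, hSpos, hroot'⟩ : ∃ S : Finset ℕ, (∀ n ∈ S, 0 < rho n) ∧
      ∀ b ∈ s, b ∉ closedBall (0:ℂ) 1 ∨ ∃ n ∈ S, b ∈ ball (q n) (rho n) := by
    clear hs1 hs2 hclose
    induction s with
    | nil => exact ⟨∅, by simp, by simp⟩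
    | cons b s ih =>
      obtain ⟨S₁, h1, h2⟩ := ih (fun b' hb' => hroot b' (List.mem_cons_of_mem _ hb'))
      rcases hroot b List.mem_cons_self with h3 | ⟨n, h3⟩
      · refine ⟨S₁, h1, fun b' hb' => ?_⟩
        rcases List.mem_cons.1 hb' with rfl | h4
        · exact Or.inl h3
        · exact h2 b' h4
      · refine ⟨insert n S₁, fun m hm => ?_, fun b' hb' => ?_⟩
        · rcases Finset.mem_insert.1 hm with rfl | hm
          · exact pos_of_mem h3
          · exact h1 m hm
        · rcases List.mem_cons.1 hb' with rfl | h4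
          · exact Or.inr ⟨n, Finset.mem_insert_self _ _, h3⟩
          · rcases h2 b' h4 with h5 | ⟨m, h5, h6⟩
            · exact Or.inl h5
            · exact Or.inr ⟨m, Finset.mem_insert_of_mem h5, h6⟩
  have hconf : Config 0 1 S q rho :=
    ⟨one_pos, fun n hn => hSpos n hn, fun n hn => ball_sub (hSpos n hn),
      fun m hm n hn hmn => disj hmn (hSpos m hm) (hSpos n hn)⟩
  have hEx2 : (2:ℂ) ∈ Ex 0 1 S q rho := by
    left
    rw [mem_closedBall_zero_iff, not_le]
    simp
  have hII := (multi_cauchy hconf (p' * (Polynomial.X - C 2)) s hroot').2 2 hEx2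
  have hG2 : ∀ z, z ≠ 2 → (z - 2)⁻¹ * GG (p' * (Polynomial.X - C 2)) s z = GG p' s z := by
    intro z hz
    have : z - 2 ≠ 0 := sub_ne_zero.2 hz
    simp only [GG, eval_mul, eval_sub, eval_X, eval_C]
    field_simp
  have hc0 : cint 0 1 (GG (p' * (Polynomial.X - C 2)) s) 2 = ∮ z in C(0, 1), GG p' s z := by
    unfold cint
    apply circleIntegral.integral_congr zero_le_one
    intro z hz
    exact hG2 z (hconf.outer_ne hz hEx2)
  have hci : ∀ i ∈ S, cint (q i) (rho i) (GG (p' * (Polynomial.X - C 2)) s) 2 =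
      ∮ z in C(q i, rho i), GG p' s z := by
    intro i hi
    unfold cint
    apply circleIntegral.integral_congr (hSpos i hi).le
    intro z hz
    exact hG2 z (hconf.inner_ne hi hz hEx2)
  unfold II at hII
  rw [hc0, Finset.sum_congr rfl hci, sub_eq_zero] at hII
  -- outer circle
  have hcont0 : ContinuousOn (GG p' s) (sphere 0 1) := fun z hz =>
    (GG_continuousAt p' s z fun b hb => hconf.outer_ne hz (hroot' b hb)).continuousWithinAt
  have hint0 : CircleIntegrable (GG p' s) 0 1 := hcont0.circleIntegrable zero_le_one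
  have hinv : CircleIntegrable (fun z : ℂ => (z - 0)⁻¹) 0 1 := by
    apply ContinuousOn.circleIntegrable zero_le_one
    refine ContinuousOn.inv₀ (by fun_prop) ?_
    intro z hz h
    rw [sub_zero] at h
    rw [h] at hz
    simp at hz
  have hout : ‖(∮ z in C(0, 1), GG p' s z) - 2 * Real.pi * Complex.I‖ ≤ 2 * Real.pi * 1 * (1 / 4) := by
    rw [← circleIntegral.integral_sub_center_inv 0 (R := 1) one_ne_zero,
      ← circleIntegral.integral_sub hint0 hinv]
    apply circleIntegral.norm_integral_le_of_norm_le_const zero_le_one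
    intro z hz
    have h1 := hclose z (unit_sub_KK hz)
    have h2 : (z - 0)⁻¹ = star z := by
      rw [sub_zero]
      have h3 : ‖z‖ = 1 := by simpa using hz
      exact Complex.inv_eq_conj h3
    rw [h2]; exact h1
  have hin : ∀ i ∈ S, ‖∮ z in C(q i, rho i), GG p' s z‖ ≤ 2 * Real.pi * (3 / 8) * rho i := by
    intro i hi
    have hpos := hSpos i hi
    have hcont : ContinuousOn (GG p' s) (sphere (q i) (rho i)) := fun z hz =>
      (GG_continuousAt p' s z fun b hb => hconf.inner_ne hi hz (hroot' b hb)).continuousWithinAt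
    have h0 : (∮ z in C(q i, rho i), GG p' s z) =
        ∮ z in C(q i, rho i), (GG p' s z - star (q i)) := by
      rw [circleIntegral.integral_sub (hcont.circleIntegrable hpos.le)
        (continuousOn_const.circleIntegrable hpos.le), circle_const _ _ hpos.le, sub_zero]
    rw [h0]
    have := circleIntegral.norm_integral_le_of_norm_le_const (f := fun z => GG p' s z - star (q i))
      (c := q i) (C := 3 / 8) hpos.le (by
        intro z hz
        have h1 := hclose z (sphere_sub_KK hpos hz)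
        have h2 : ‖star z - star (q i)‖ = rho i := by
          rw [← star_sub, norm_star, ← dist_eq_norm]; exact hz
        have h3 : GG p' s z - star (q i) = (GG p' s z - star z) + (star z - star (q i)) := by ring
        rw [h3]
        refine (norm_add_le _ _).trans ?_
        rw [h2]
        linarith [rho_le' i])
    refine this.trans (le_of_eq ?_)
    ring
  have hsum : ‖∮ z in C(0, 1), GG p' s z‖ ≤ 2 * Real.pi * (3 / 8) * (1 / 4) := by
    rw [hII]
    refine (norm_sum_le _ _).trans ((Finset.sum_le_sum hin).trans ?_)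
    rw [← Finset.mul_sum]
    exact mul_le_mul_of_nonneg_left (sum_rho_le S) (by positivity)
  have hfin : ‖(2 * Real.pi * Complex.I : ℂ)‖ ≤ 2 * Real.pi * (3 / 8) * (1 / 4) + 2 * Real.pi * 1 * (1 / 4) := by
    have h1 : (2 * Real.pi * Complex.I : ℂ) = (∮ z in C(0, 1), GG p' s z) -
        ((∮ z in C(0, 1), GG p' s z) - 2 * Real.pi * Complex.I) := by ring
    rw [h1]
    exact (norm_sub_le _ _).trans (add_le_add hsum hout)
  have hnorm : ‖(2 * Real.pi * Complex.I : ℂ)‖ = 2 * Real.pi := by
    rw [norm_mul, norm_mul, Complex.norm_I, Complex.norm_real, Real.norm_eq_abs,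
      abs_of_pos Real.pi_pos]; simp
  rw [hnorm] at hfin
  nlinarith [Real.pi_pos]

end Pool.Agent.R254.Cheese
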