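import Pool.Agent.R254.Cheese.Discs
import Pool.Agent.H136R3.Cauchy

/-! The compact set: the closed unit disc minus open annuli. -/

set_option autoImplicit false

open Set Filter Topology Metric Polynomial

namespace Pool.Agent.R254.Cheese

/-- The (restrictions to `X` of) rational functions with poles off `X`. -/
def ratSet (X : Set ℂ) : Set C(X, ℂ) :=
  {g | ∃ p q : ℂ[X], (∀ z ∈ X, q.eval z ≠ 0) ∧ ∀ z : X, g z = p.eval (z : ℂ) / q.eval (z : ℂ)}

/-- `R(X)` for compact `X`: the closure of `ratSet X` in `C(X)`. -/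
def R (X : Set ℂ) : Set C(X, ℂ) := closure (ratSet X)

/-- `A⁽¹⁾(X)`: the continuous functions on `X`, holomorphic on the interior, whose derivative there
extends to a continuous function on `X`. -/
def A1 (X : Set ℂ) : Set C(X, ℂ) :=
  {f | ∃ (F : ℂ → ℂ) (g : C(X, ℂ)), (∀ z : X, F z = f z) ∧
    ∀ z : X, (z : ℂ) ∈ interior X → HasDerivAt F (g z) z}

/-- the open annuli -/
def Ann (n : ℕ) : Set ℂ := {z | rho n / 2 < dist z (q n) ∧ dist z (q n) < rho n}

/-- the set -/
def XX : Set ℂ := closedBall 0 1 \ ⋃ n, Ann n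

theorem isOpen_Ann (n : ℕ) : IsOpen (Ann n) :=
  (isOpen_lt continuous_const (continuous_id.dist continuous_const)).inter
    (isOpen_lt (continuous_id.dist continuous_const) continuous_const)

theorem isCompact_XX : IsCompact XX :=
  (isCompact_closedBall (0:ℂ) 1).diff (isOpen_iUnion isOpen_Ann)

theorem pos_of_mem {n : ℕ} {z : ℂ} (h : z ∈ ball (q n) (rho n)) : 0 < rho n :=
  dist_nonneg.trans_lt h

theorem mem_half {n : ℕ} {z : ℂ} (hz : z ∈ XX) (h : z ∈ ball (q n) (rho n)) :
    z ∈ closedBall (q n) (rho n / 2) := by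
  by_contra hcon
  rw [mem_closedBall, not_le] at hcon
  exact hz.2 (mem_iUnion.2 ⟨n, hcon, h⟩)

theorem uniq {m n : ℕ} {z : ℂ} (hm : z ∈ closedBall (q m) (rho m)) (hm0 : 0 < rho m)
    (hn : z ∈ closedBall (q n) (rho n)) (hn0 : 0 < rho n) : m = n := by
  by_contra hmn
  exact Set.disjoint_left.1 (disj hmn hm0 hn0) hm hn

theorem half_sub {n : ℕ} (hn : 0 < rho n) : closedBall (q n) (rho n / 2) ⊆ XX := by
  intro z hz
  have hz' : z ∈ closedBall (q n) (rho n) := closedBall_subset_closedBall (by linarith) hz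
  refine ⟨ball_subset_closedBall (ball_sub hn hz'), fun h => ?_⟩
  obtain ⟨m, hm1, hm2⟩ := mem_iUnion.1 h
  have hm0 : 0 < rho m := dist_nonneg.trans_lt hm2
  have := uniq hz' hn (mem_closedBall.2 hm2.le) hm0
  subst this
  exact absurd hm1 (not_lt.2 hz)

/-- the remaining set: outside all open discs -/
def KK : Set ℂ := {z | z ∈ closedBall (0:ℂ) 1 ∧ ∀ n, z ∉ ball (q n) (rho n)}

theorem KK_sub : KK ⊆ XX := by
  rintro z ⟨hz, hz'⟩
  refine ⟨hz, fun h => ?_⟩
  obtain ⟨n, -, hn⟩ := mem_iUnion.1 h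
  exact hz' n hn

theorem sphere_sub_KK {n : ℕ} (hn : 0 < rho n) : sphere (q n) (rho n) ⊆ KK := by
  intro z hz
  have hz' : z ∈ closedBall (q n) (rho n) := sphere_subset_closedBall hz
  refine ⟨ball_subset_closedBall (ball_sub hn hz'), fun m hm => ?_⟩
  have := uniq hz' hn (ball_subset_closedBall hm) (pos_of_mem hm)
  subst this
  rw [mem_ball, mem_sphere.1 hz] at hm
  exact lt_irrefl _ hm

theorem unit_sub_KK : sphere (0:ℂ) 1 ⊆ KK := by
  intro z hz
  refine ⟨sphere_subset_closedBall hz, fun m hm => ?_⟩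
  have := ball_sub (pos_of_mem hm) (ball_subset_closedBall hm)
  rw [mem_ball, mem_sphere.1 hz] at this
  exact lt_irrefl _ this

theorem dense_int : XX ⊆ closure (interior XX) := by
  have hsub : ∀ n, 0 < rho n → ball (q n) (rho n / 2) ⊆ interior XX := fun n hn =>
    interior_maximal (ball_subset_closedBall.trans (half_sub hn)) isOpen_ball
  intro z hz
  by_cases h : ∃ n, z ∈ ball (q n) (rho n)
  · obtain ⟨n, hn⟩ := h
    have hpos := pos_of_mem hn
    have h1 := mem_half hz hn
    rw [← closure_ball _ (by positivity)] at h1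
    exact closure_mono (hsub n hpos) h1
  · push Not at h
    rw [Metric.mem_closure_iff]
    intro ε hε
    obtain ⟨n, hn, hd⟩ := centres_dense hz.1 h hε
    exact ⟨q n, hsub n hn (mem_ball_self (by positivity)), by rw [dist_comm]; exact hd⟩

/-- the function -/
noncomputable def ff (z : ℂ) : ℂ := by
  classical
  exact if h : ∃ n, z ∈ ball (q n) (rho n) then star (q h.choose) else star z

theorem ff_ball {n : ℕ} {z : ℂ} (h : z ∈ ball (q n) (rho n)) : ff z = star (q n) := by
  classical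
  have h' : ∃ n, z ∈ ball (q n) (rho n) := ⟨n, h⟩
  have h1 := h'.choose_spec
  have : h'.choose = n := uniq (ball_subset_closedBall h1) (pos_of_mem h1)
    (ball_subset_closedBall h) (pos_of_mem h)
  rw [ff, dif_pos h', this]

theorem ff_KK {z : ℂ} (h : z ∈ KK) : ff z = star z := by
  classical
  have h' : ¬ ∃ n, z ∈ ball (q n) (rho n) := by
    push Not; exact h.2
  rw [ff, dif_neg h']

theorem ff_lip {z₀ z : ℂ} (h₀ : z₀ ∈ KK) (hz : z ∈ XX) : dist (ff z) (ff z₀) ≤ 2 * dist z z₀ := by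
  rw [ff_KK h₀]
  by_cases h : ∃ n, z ∈ ball (q n) (rho n)
  · obtain ⟨n, hn⟩ := h
    rw [ff_ball hn]
    have h1 : dist z (q n) ≤ rho n / 2 := mem_half hz hn
    have h2 : rho n ≤ dist z₀ (q n) := not_lt.1 (h₀.2 n)
    have h3 := dist_triangle z₀ z (q n)
    rw [dist_comm z₀ z] at h3
    have h4 : dist (star (q n)) (star z₀) = dist (q n) z₀ := by
      rw [dist_eq_norm, ← star_sub, norm_star, dist_eq_norm]
    rw [h4]
    have h5 := dist_triangle (q n) z z₀
    rw [dist_comm (q n) z] at h5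
    linarith
  · push Not at h
    rw [ff_KK ⟨hz.1, h⟩]
    have h4 : dist (star z) (star z₀) = dist z z₀ := by
      rw [dist_eq_norm, ← star_sub, norm_star, dist_eq_norm]
    rw [h4]
    linarith [dist_nonneg (x := z) (y := z₀)]

theorem ff_const {z₀ : ℂ} {n : ℕ} (h : z₀ ∈ ball (q n) (rho n)) : ∀ᶠ z in 𝓝 z₀, ff z = ff z₀ := by
  filter_upwards [isOpen_ball.mem_nhds h] with z hz
  rw [ff_ball hz, ff_ball h]

theorem ff_cont : ContinuousOn ff XX := by
  intro z₀ hz₀
  by_cases h : ∃ n, z₀ ∈ ball (q n) (rho n)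
  · obtain ⟨n, hn⟩ := h
    exact (tendsto_nhds_of_eventually_eq (ff_const hn)).mono_left nhdsWithin_le_nhds
  · push Not at h
    have hK : z₀ ∈ KK := ⟨hz₀.1, h⟩
    rw [ContinuousWithinAt, tendsto_iff_dist_tendsto_zero]
    refine squeeze_zero' (Eventually.of_forall fun _ => dist_nonneg) ?_ (g := fun z => 2 * dist z z₀) ?_
    · filter_upwards [self_mem_nhdsWithin] with z hz
      exact ff_lip hK hz
    · have : Continuous fun z : ℂ => 2 * dist z z₀ := by fun_prop
      have h2 := (this.tendsto z₀).mono_left (nhdsWithin_le_nhds (s := XX))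
      simpa using h2

/-- the interior of `X` is contained in the discs -/
theorem int_sub {z₀ : ℂ} (h : z₀ ∈ interior XX) : ∃ n, z₀ ∈ ball (q n) (rho n) := by
  by_contra hcon
  push Not at hcon
  have hzX : z₀ ∈ XX := interior_subset h
  obtain ⟨ε, hε, hsub⟩ := Metric.isOpen_iff.1 isOpen_interior z₀ h
  obtain ⟨n, hn, hd⟩ := centres_dense hzX.1 hcon hε
  -- on the segment from the centre to `z₀` there is a point of the annulus
  have hout : rho n ≤ dist z₀ (q n) := not_lt.1 (hcon n)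
  have hdpos : 0 < dist z₀ (q n) := lt_of_lt_of_le hn hout
  set t : ℝ := (3 / 4 * rho n) / dist z₀ (q n) with ht
  have ht0 : 0 ≤ t := by positivity
  have ht1 : t ≤ 1 := by
    rw [ht, div_le_one hdpos]; linarith
  set w : ℂ := AffineMap.lineMap (q n) z₀ t with hw
  have h1 : dist w (q n) = 3 / 4 * rho n := by
    rw [hw, dist_lineMap_left, Real.norm_eq_abs, abs_of_nonneg ht0, ht, dist_comm (q n) z₀]
    field_simp
  have h2 : dist w z₀ < ε := by
    rw [hw, dist_lineMap_right, Real.norm_eq_abs, abs_of_nonneg (by linarith)]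
    have : (1 - t) * dist (q n) z₀ ≤ 1 * dist (q n) z₀ :=
      mul_le_mul_of_nonneg_right (by linarith) dist_nonneg
    linarith
  have h3 : w ∈ XX := interior_subset (hsub h2)
  apply h3.2
  refine mem_iUnion.2 ⟨n, ?_, ?_⟩
  · rw [h1]; linarith
  · rw [h1]; linarith

theorem ff_mem_A1 (h : ContinuousOn ff XX) :
    (⟨fun z : XX => ff z, continuousOn_iff_continuous_restrict.1 h⟩ : C(XX, ℂ)) ∈ A1 XX := by
  refine ⟨ff, 0, fun z => rfl, fun z hz => ?_⟩
  obtain ⟨n, hn⟩ := int_sub hz
  show HasDerivAt ff 0 z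
  exact (hasDerivAt_const (z:ℂ) (ff z)).congr_of_eventuallyEq (ff_const hn)

end Pool.Agent.R254.Cheese
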